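import Mathlib
import Pool.Agent.W223.VD.Points
import Pool.Agent.TH876.QR.Def
import Pool.Agent.TH876.QR.Places2
import Pool.Agent.TH876.QR.Near
import Pool.Agent.TH876.QR.Pair
import Pool.Agent.TH876.QR.Pig
import Pool.Agent.TH876.QR.Link
import Pool.Agent.TH876.QR.Count

set_option autoImplicit false

/-!
# Vojta's height inequality for rational divisors on the projective line: the exceptional points of
degree `r`

Let `D = P_1 + ⋯ + P_q` be a sum of `q ≥ 3` distinct rational points of the projective line, `S` a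
finite set of primes, `κ > 2`, `C₀` real and `r ≥ 2`. The conjecture says that
`m_S(D, x) ≤ κ h(x) + d(x) + C₀` for all but finitely many algebraic numbers `x` of degree `r`;
here `d(x) = log |disc ℚ(x)| / r`. There are about `B ^ (r (r + 1))` algebraic numbers `x` of degree
`r` and height at most `log B`. We show that at most `O(B ^ (r e + δ))` of them violate the
inequality, where, if the number of fields of degree `r` and discriminant at most `Δ` is
`O(Δ ^ α)` and `m = min q (r + 1)`, `e` is the smaller of `α (q - κ)` and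
`α (q (r + 1 - m) + m (q - κ)) / (q α + m)`.

Method: in a fixed field of degree `r` the number of violators of height at most `log B` is
`O(log log B)` uniformly in the field, by a gap principle, and this is used for the fields of small
discriminant; for the others the radicals of the values of the minimal polynomial of `x` at the
points `P_j` are small.
-/

namespace Pool.Agent.Results.MP_6f1c57_nt.RationalDivisorsAllDegrees

open Polynomial IntermediateField IsDedekindDomain NumberField

/-- The absolute logarithmic height `(log M(f)) / deg f` of the roots of an irreducible integral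
polynomial `f` (`M` is the Mahler measure). -/
noncomputable def height (f : ℤ[X]) : ℝ :=
  Real.log (f.map (Int.castRingHom ℂ)).mahlerMeasure / f.natDegree

/-- The local height `log (max(|x|, 1) max(|u|, |w|) / |u - x w|)` of `x` with respect to the point
`(u : w)` of the line and the absolute value `a`. -/
noncomputable def localHeight {K : Type} [Field K] (a : K → ℝ) (P : ℤ × ℤ) (x : K) : ℝ :=
  Real.log (max (a x) 1 * max (a (P.1 : K)) (a (P.2 : K)) / a ((P.1 : K) - x * (P.2 : K)))

open Classical in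
/-- The proximity function `m_S(D, x)` of `D = ∑ P_j`: with `K = ℚ(x)`, the sum of the local heights
of `x` with respect to the `P_j` at the infinite places `v` (with `mult v = [K_v : ℝ]`) and at the
primes of `K` above the primes of `S`, divided by `[K : ℚ]`. The absolute values are normalised so
that the product formula holds: `|b|_v = N(v) ^ (- v(b))`. -/
noncomputable def proximity {q : ℕ} (S : Finset ℕ) (P : Fin q → ℤ × ℤ) (x : ℂ) : ℝ :=
  if _ : NumberField ℚ⟮x⟯ then
    (∑ v : InfinitePlace ℚ⟮x⟯,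
        (v.mult : ℝ) * ∑ j, localHeight (fun b => v b) (P j) (AdjoinSimple.gen ℚ x) +
      ∑ᶠ v ∈ {v : HeightOneSpectrum (𝓞 ℚ⟮x⟯) | ∃ p ∈ S, (p : 𝓞 ℚ⟮x⟯) ∈ v.asIdeal},
        ∑ j, localHeight (fun b => FinitePlace.mk v b) (P j) (AdjoinSimple.gen ℚ x)) /
      Module.finrank ℚ ℚ⟮x⟯
  else 0

open Classical in
/-- The logarithmic discriminant `d(x) = log |disc ℚ(x)| / [ℚ(x) : ℚ]`. -/
noncomputable def logDisc (x : ℂ) : ℝ :=
  if _ : NumberField ℚ⟮x⟯ then
    Real.log |(NumberField.discr ℚ⟮x⟯ : ℝ)| / Module.finrank ℚ ℚ⟮x⟯ else 0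

/-- The number of number fields of degree `r` and discriminant at most `Δ` is
`O(Δ ^ (alpha r c η))`: here `alpha r c η` is the smaller of
`(r - 1) (r + 2) / (4 ⌈r / 2⌉)` and `c r ^ η`. -/
noncomputable def alpha (r : ℕ) (c η : ℝ) : ℝ :=
  min (((r : ℝ) - 1) * (r + 2) / (4 * ((r + 1) / 2 : ℕ))) (c * (r : ℝ) ^ η)

/-- The exponent of the theorem: with `m = min q (r + 1)`, it is
`α * min (q - κ) ((q (r + 1 - m) + m (q - κ)) / (q α + m))`. -/
noncomputable def exponent (α : ℝ) (r q : ℕ) (κ : ℝ) : ℝ :=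
  α * min (q - κ) ((q * (r + 1 - (min q (r + 1) : ℕ)) + (min q (r + 1) : ℕ) * (q - κ)) /
    (q * α + (min q (r + 1) : ℕ)))

/-- The algebraic numbers `x` of degree `r` and height at most `log B` which violate
`m_S(D, x) ≤ κ h(x) + d(x) + C₀`. -/
def exceptional {q : ℕ} (S : Finset ℕ) (P : Fin q → ℤ × ℤ) (r : ℕ) (κ C₀ B : ℝ) : Set ℂ :=
  {x | ∃ f : ℤ[X], Irreducible f ∧ f.natDegree = r ∧ aeval x f = 0 ∧ height f ≤ Real.log B ∧
    κ * height f + logDisc x + C₀ < proximity S P x}

open Pool.Agent.TH876.QR Pool.Agent.TH876.Loc Pool.Agent.H691R3 in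
theorem tot_eq {K : Type} [Field K] [NumberField K] {q : ℕ} (S : Finset ℕ)
    (hfin : (Pls K S).Finite) (P : Fin q → ℤ × ℤ) (x : K) :
    Tot S P x = ∑ v : InfinitePlace K,
        (v.mult : ℝ) * ∑ j, localHeight (fun b => v b) (P j) x +
      ∑ᶠ v ∈ {v : HeightOneSpectrum (𝓞 K) | ∃ p ∈ S, (p : 𝓞 K) ∈ v.asIdeal},
        ∑ j, localHeight (fun b => FinitePlace.mk v b) (P j) x := by
  classical
  have hw : ∀ (a : AbsoluteValue K ℝ) (j : Fin q), lamA (fun b => a b) (aff x) (pt K (P j)) =
      localHeight (fun b => a b) (P j) x := by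
    intro a j
    unfold lamA localHeight aff pt
    simp only [map_one, one_mul]
    rw [← a.map_neg (x * ((P j).2 : K) - ((P j).1 : K)), neg_sub]
  have hset : Pls K S = Sum.inl '' (Set.univ : Set (InfinitePlace K)) ∪
      Sum.inr '' {v : HeightOneSpectrum (𝓞 K) | ∃ p ∈ S, (p : 𝓞 K) ∈ v.asIdeal} := by
    ext v
    rcases v with w | u
    · simp only [Pls, Set.mem_ofPred_eq, Set.mem_union, Set.mem_image]
      refine ⟨fun _ => Or.inl ⟨w, Set.mem_univ _, rfl⟩, fun _ u h => by simp at h⟩
    · simp only [Pls, Set.mem_ofPred_eq, Set.mem_union, Set.mem_image]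
      constructor
      · intro h
        exact Or.inr ⟨u, h u rfl, rfl⟩
      · rintro (⟨w, _, h⟩ | ⟨w, h, h'⟩)
        · simp at h
        · intro u' h2
          rw [← h'] at h2
          rw [← Sum.inr_injective h2]
          exact h
  have hf2 : (Sum.inr '' {v : HeightOneSpectrum (𝓞 K) | ∃ p ∈ S, (p : 𝓞 K) ∈ v.asIdeal} :
      Set (Pl K)).Finite := hfin.subset (by rw [hset]; exact Set.subset_union_right)
  unfold Tot
  rw [hset, finsum_mem_union _ (Set.finite_univ.image _) hf2, finsum_mem_image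
    Sum.inl_injective.injOn, finsum_mem_image Sum.inr_injective.injOn, finsum_mem_univ,
    finsum_eq_sum_of_fintype]
  · congr 1
    · refine Finset.sum_congr rfl fun w _ => ?_
      rw [Finset.mul_sum]
      refine Finset.sum_congr rfl fun j _ => ?_
      unfold lam
      simp only [Sum.elim_inl]
      congr 1
      exact hw w.1 j
    · refine finsum_mem_congr rfl fun v _ => ?_
      refine Finset.sum_congr rfl fun j _ => ?_
      unfold lam
      simp only [Sum.elim_inr]
      exact hw (fv v) j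
  · rw [Set.disjoint_left]
    rintro v ⟨w, _, rfl⟩ ⟨u, _, h⟩
    simp at h

open Pool.Agent.TH876.QR in
/-- **Vojta's height inequality for rational divisors on the line, points of degree `r`.** Let
`η > 0`. There is `c ≥ 1` such that for all `r ≥ 2`, all sums `D = P_1 + ⋯ + P_q` of `q ≥ 3`
distinct rational points of the line, all finite sets `S` of primes and all real `2 < κ ≤ q`, `C₀`
and `δ > 0` the following holds for all `B ≥ 1`: all but
`C * B ^ (r * exponent (alpha r c η) r q κ + δ)` algebraic numbers `x` of degree `r` and height at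
most `log B` satisfy `m_S(D, x) ≤ κ h(x) + d(x) + C₀`. -/
theorem result : ∀ η : ℝ, 0 < η → ∃ c : ℝ, 1 ≤ c ∧ ∀ (r q : ℕ), 2 ≤ r → 3 ≤ q →
    ∀ P : Fin q → ℤ × ℤ, (∀ j, IsCoprime (P j).1 (P j).2) →
    (∀ i j, i ≠ j → (P i).1 * (P j).2 ≠ (P j).1 * (P i).2) →
    ∀ S : Finset ℕ, (∀ p ∈ S, p.Prime) → ∀ κ C₀ δ : ℝ, 2 < κ → κ ≤ q → 0 < δ →
    ∃ C : ℝ, ∀ B : ℝ, 1 ≤ B → (exceptional S P r κ C₀ B).Finite ∧
      ((exceptional S P r κ C₀ B).ncard : ℝ) ≤
        C * B ^ ((r : ℝ) * exponent (alpha r c η) r q κ + δ) := by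
  intro η hη
  obtain ⟨c, hc, hα⟩ := Pool.Agent.W223.VD.Points.alpha_admissible hη
  refine ⟨c, hc, ?_⟩
  intro r q hr hq P hP hPP S hS κ C₀ δ hκ2 hκ hδ
  obtain ⟨hα1, hα2⟩ := hα r hr
  have hr0 : (0 : ℝ) < r := by exact_mod_cast (show 0 < r by omega)
  have hdet : ∀ i j, i ≠ j → (P i).1 * (P j).2 - (P j).1 * (P i).2 ≠ 0 :=
    fun i j hij => sub_ne_zero.mpr (hPP i j hij)
  obtain ⟨C, hC, hB⟩ := count (perField places2 near pair) link totLe r q _ hr hq hα1 hα2 P hP hdet S hS κ (r * |C₀|) δ hκ2 hκ
    (by positivity) hδ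
  refine ⟨C, fun B hB1 => ?_⟩
  obtain ⟨h1, h2⟩ := hB B hB1
  have hsub : exceptional S P r κ C₀ B ⊆ Viol S P r κ (r * |C₀|) B := by
    rintro x ⟨f, hf, hd, hx, hh, hv⟩
    obtain ⟨hK, hfr⟩ := Pool.Agent.W223.VD.field_data (by omega) hf hd hx
    have hM : 0 < (f.map (Int.castRingHom ℂ)).mahlerMeasure :=
      lt_of_lt_of_le one_pos (Pool.Agent.H813R3.Voj.one_le_mahler hf.ne_zero)
    have hmh : Real.log (Pool.Agent.H813R3.Voj.mahler f) = r * height f := by
      unfold height
      rw [hd, mul_div_cancel₀ _ hr0.ne']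
      rfl
    refine ⟨hK, f, hf, hd, hx, ?_, ?_⟩
    · show (f.map (Int.castRingHom ℂ)).mahlerMeasure ≤ B ^ r
      unfold height at hh
      rw [hd, div_le_iff₀ hr0, mul_comm, ← Real.log_pow] at hh
      exact (Real.log_le_log_iff hM (by positivity)).mp hh
    · have hpr : (r : ℝ) * proximity S P x = Tot S P (AdjoinSimple.gen ℚ x) := by
        unfold proximity
        rw [dif_pos hK, hfr, mul_div_cancel₀ _ hr0.ne', tot_eq S (places2 ℚ⟮x⟯ S hS).1]
      have hld : logDisc x = Pool.Agent.W223.VD.logDisc x := rfl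
      rw [hmh, ← hld, ← hpr]
      have h3 : (r : ℝ) * (κ * height f + logDisc x + C₀) ≤ r * proximity S P x :=
        mul_le_mul_of_nonneg_left hv.le hr0.le
      have h4 : -(r * |C₀|) ≤ (r : ℝ) * C₀ := by
        rw [← mul_neg]
        exact mul_le_mul_of_nonneg_left (neg_abs_le C₀) hr0.le
      have h5 : (r : ℝ) * (κ * height f + logDisc x + C₀) =
          κ * (r * height f) + r * logDisc x + r * C₀ := by ring
      linarith
  refine ⟨h1.subset hsub, ?_⟩
  have h3 : ((exceptional S P r κ C₀ B).ncard : ℝ) ≤ ((Viol S P r κ (r * |C₀|) B).ncard : ℝ) := by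
    exact_mod_cast Set.ncard_le_ncard hsub h1
  exact h3.trans (h2.trans (le_of_eq rfl))

end Pool.Agent.Results.MP_6f1c57_nt.RationalDivisorsAllDegrees
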