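import Mathlib
import Pool.Agent.TH419.VQ.Main

/-!
# MP_6f1c57_nt: the height inequality for the points `(x, f(x) ^ (1/q))`, `x` and the radicand sparse

Let `f` be an integral polynomial of degree `n ≥ 1` without repeated roots, `q ≥ 2`, and let `S` be
a finite set of primes. For all integers `x`, `D`, `s` with `f(x) = D * s ^ q ≠ 0` such that

* `x = a 0 * u 0 + ... + a k * u k` with positive integers `u i` all of whose prime factors are in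
  `S`, integers `|a i| ≤ H`, `a 0 ≠ 0`, and `u i ≤ (u 0) ^ (1 - η)` for `i ≠ 0`,
* `D = b 0 * v 0 + ... + b k' * v k'` with positive integers `v i` all of whose prime factors are in
  `S`, integers `|b i| ≤ H`, `b 0 ≠ 0`, and `v i ≤ v 0 / (u 0) ^ η` for `i ≠ 0`,

the integer `s` being ARBITRARY, we show

  `max(|x|, 1) ^ (n - q / (q - 1) - ε) ≤ C * |D|`.

For `q = 2` and `D` squarefree this is the height inequality for the quadratic points
`P = (x, √f(x))` of the curve `y ^ 2 = f(x)`, with respect to the divisor at infinity; for `q ∣ n`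
and `D` squarefree it is the inequality for the points `(x, f(x) ^ (1/q))` of degree `q` of
`y ^ q = f(x)`.

Proof: `(D s) ^ q = D ^ (q - 1) f(x)` is a sparse sum with a dominating term; the expansion of its
`q`-th root and the subspace theorem show that `D s` is, up to a small factor, a sum of boundedly
many `S`-units. For the derivation of germs of sums of `S`-units one gets from
`f(x) = D s ^ q` that `f'(x) x' = s ^ (q - 1) (q (D s)' - (q - 1) D' s)`, so `s ^ (q - 1)` divides a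
multiple of `x'`, and `x'` is not larger than `x`.
-/

set_option autoImplicit false

open Polynomial

namespace Pool.Agent.Results.MP_6f1c57_nt.SparsePowerDivisors

/-- the value of a polynomial of degree `n` at a large integer -/
lemma lower (f : ℤ[X]) (hn : 1 ≤ f.natDegree) : ∃ B : ℝ, 1 ≤ B ∧ ∀ x : ℤ, B ≤ |(x : ℝ)| →
    |(x : ℝ)| ^ f.natDegree / 2 ≤ |((f.eval x : ℤ) : ℝ)| := by
  obtain ⟨n, hnn⟩ : ∃ n, f.natDegree = n + 1 := ⟨f.natDegree - 1, by omega⟩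
  obtain ⟨A, hA⟩ : ∃ A : ℝ, A = ∑ i ∈ Finset.range (n + 1), |(f.coeff i : ℝ)| := ⟨_, rfl⟩
  have hA0 : 0 ≤ A := by rw [hA]; exact Finset.sum_nonneg fun i _ => abs_nonneg _
  refine ⟨2 * A + 1, by linarith, fun x hx => ?_⟩
  have h1 : (1 : ℝ) ≤ |(x : ℝ)| := by linarith
  have hlc : f.coeff (n + 1) ≠ 0 := by
    have h2 : f ≠ 0 := by
      rintro rfl
      simp at hnn
    have h3 := Polynomial.leadingCoeff_ne_zero.2 h2
    rwa [Polynomial.leadingCoeff, hnn] at h3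
  have hlc1 : (1 : ℝ) ≤ |(f.coeff (n + 1) : ℝ)| := by
    exact_mod_cast Int.one_le_abs hlc
  have h2 : ((f.eval x : ℤ) : ℝ) = (∑ i ∈ Finset.range (n + 1), (f.coeff i : ℝ) * (x : ℝ) ^ i) +
      (f.coeff (n + 1) : ℝ) * (x : ℝ) ^ (n + 1) := by
    rw [Polynomial.eval_eq_sum_range, hnn, Finset.sum_range_succ]
    push_cast
    rfl
  have h3 : |∑ i ∈ Finset.range (n + 1), (f.coeff i : ℝ) * (x : ℝ) ^ i| ≤ A * |(x : ℝ)| ^ n := by
    refine (Finset.abs_sum_le_sum_abs _ _).trans ?_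
    rw [hA, Finset.sum_mul]
    refine Finset.sum_le_sum fun i hi => ?_
    rw [abs_mul, abs_pow]
    exact mul_le_mul_of_nonneg_left
      (pow_le_pow_right₀ h1 (Nat.lt_succ_iff.1 (Finset.mem_range.1 hi))) (abs_nonneg _)
  have h4 : |(x : ℝ)| ^ (n + 1) ≤ |(f.coeff (n + 1) : ℝ) * (x : ℝ) ^ (n + 1)| := by
    rw [abs_mul, abs_pow]
    exact le_mul_of_one_le_left (by positivity) hlc1
  have h5 : |(f.coeff (n + 1) : ℝ) * (x : ℝ) ^ (n + 1)| ≤ |((f.eval x : ℤ) : ℝ)| +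
      |∑ i ∈ Finset.range (n + 1), (f.coeff i : ℝ) * (x : ℝ) ^ i| := by
    have h6 : (f.coeff (n + 1) : ℝ) * (x : ℝ) ^ (n + 1) = ((f.eval x : ℤ) : ℝ) -
        ∑ i ∈ Finset.range (n + 1), (f.coeff i : ℝ) * (x : ℝ) ^ i := by
      rw [h2]; ring
    rw [h6]
    exact abs_sub _ _
  have h6 : A * |(x : ℝ)| ^ n ≤ |(x : ℝ)| ^ (n + 1) / 2 := by
    rw [pow_succ]
    have h7 : 0 < |(x : ℝ)| ^ n := by positivity
    nlinarith
  rw [hnn]
  linarith

theorem result (f : ℤ[X]) (hf : (f.map (Int.castRingHom ℚ)).Separable) (hn : 1 ≤ f.natDegree)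
    (q : ℕ) (hq : 2 ≤ q) (k k' H : ℕ) (S : Finset ℕ) (η ε : ℝ) (hη : 0 < η) (hε : 0 < ε) :
    ∃ C : ℝ, 0 < C ∧ ∀ (u : Fin (k + 1) → ℕ) (v : Fin (k' + 1) → ℕ) (a : Fin (k + 1) → ℤ)
      (b : Fin (k' + 1) → ℤ) (x D s : ℤ),
      (∀ i, u i ≠ 0 ∧ (u i).primeFactors ⊆ S) → (∀ i, v i ≠ 0 ∧ (v i).primeFactors ⊆ S) →
      (∀ i, |a i| ≤ H) → (∀ i, |b i| ≤ H) → a 0 ≠ 0 → b 0 ≠ 0 →
      (∀ i, i ≠ 0 → (u i : ℝ) ≤ (u 0 : ℝ) ^ (1 - η)) →
      (∀ i, i ≠ 0 → (v i : ℝ) ≤ (v 0 : ℝ) / (u 0 : ℝ) ^ η) →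
      x = ∑ i, a i * (u i : ℤ) → D = ∑ i, b i * (v i : ℤ) →
      f.eval x = D * s ^ q → f.eval x ≠ 0 →
      (max |(x : ℝ)| 1) ^ ((f.natDegree : ℝ) - (q : ℝ) / ((q : ℝ) - 1) - ε) ≤ C * |(D : ℝ)| := by
  obtain ⟨m, rfl⟩ : ∃ m, q = m + 2 := ⟨q - 2, by omega⟩
  obtain ⟨n, hnn⟩ : ∃ n, f.natDegree = n := ⟨_, rfl⟩
  have hm1 : (0 : ℝ) < (m : ℝ) + 1 := by positivity
  have hm2 : (0 : ℝ) < (m : ℝ) + 2 := by positivity
  obtain ⟨δ, hδ⟩ : ∃ δ : ℝ, δ = ε * ((m : ℝ) + 1) / ((m : ℝ) + 2) := ⟨_, rfl⟩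
  have hδ0 : 0 < δ := by rw [hδ]; positivity
  have hS : ∀ p ∈ S.filter Nat.Prime, p.Prime := fun p hp => (Finset.mem_filter.1 hp).2
  obtain ⟨C0, hC0⟩ := Pool.Agent.TH419.VQ.vq f hf hn m k k' H (S.filter Nat.Prime) hS η δ hη hδ0
  obtain ⟨B, hB1, hB⟩ := lower f hn
  obtain ⟨κ, hκ⟩ : ∃ κ : ℝ, κ = ((m : ℝ) + 2) / ((m : ℝ) + 1) := ⟨_, rfl⟩
  have hκ0 : 0 < κ := by rw [hκ]; positivity
  have hB0 : 0 < B := by linarith
  refine ⟨2 * Real.exp (κ * C0) + B ^ n, by positivity, ?_⟩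
  intro u v a b x D s hu hv haH hbH ha0 hb0 hdu hdv hx hD hF hF0
  have hD0 : D ≠ 0 := fun h0 => hF0 (by rw [hF, h0, zero_mul])
  have hs0 : s ≠ 0 := fun h0 => hF0 (by rw [hF, h0, zero_pow (by omega), mul_zero])
  have hs1 : (1 : ℝ) ≤ |(s : ℝ)| := by exact_mod_cast Int.one_le_abs hs0
  have hD1 : (1 : ℝ) ≤ |(D : ℝ)| := by exact_mod_cast Int.one_le_abs hD0
  have hsm : ∀ {j : ℕ} (w : Fin (j + 1) → ℕ), (∀ i, w i ≠ 0 ∧ (w i).primeFactors ⊆ S) →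
      ∀ i, Pool.Agent.TH419.WI.Smooth (S.filter Nat.Prime) (w i) := fun w hw i =>
    ⟨(hw i).1, fun p hp => Finset.mem_filter.2 ⟨(hw i).2 hp, Nat.prime_of_mem_primeFactors hp⟩⟩
  have hu0 : (0 : ℝ) < u 0 := by
    have := Nat.pos_of_ne_zero (hu 0).1
    exact_mod_cast this
  have key := hC0 u v a b (hsm u hu) (hsm v hv) hdu (fun i hi => by
    have h1 := hdv i hi
    rwa [le_div_iff₀ (Real.rpow_pos_of_pos hu0 η)] at h1) ha0 hb0 haH hbH x D s hx hD hF hF0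
  have hexpo : ((f.natDegree : ℝ) - ((m + 2 : ℕ) : ℝ) / (((m + 2 : ℕ) : ℝ) - 1) - ε) =
      (n : ℝ) - κ * (1 + δ) := by
    rw [hnn, hκ, hδ]
    push_cast
    have h1 : (m : ℝ) + 2 - 1 = m + 1 := by ring
    rw [h1]
    field_simp
    ring
  rw [hexpo]
  rcases le_or_gt B |(x : ℝ)| with hBx | hBx
  · -- large abscissa
    have hx1 : (1 : ℝ) ≤ |(x : ℝ)| := hB1.trans hBx
    have hx0 : (0 : ℝ) < |(x : ℝ)| := by linarith
    rw [max_eq_left hx1] at key ⊢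
    have h1 := hB x hBx
    rw [hnn, hF] at h1
    push_cast at h1
    rw [abs_mul, abs_pow] at h1
    have h2 : Real.log |(s : ℝ)| ≤ (C0 + (1 + δ) * Real.log |(x : ℝ)|) / ((m : ℝ) + 1) := by
      rw [le_div_iff₀ hm1]
      linarith
    have h3 : |(s : ℝ)| ^ (m + 2) ≤ Real.exp (κ * C0) * |(x : ℝ)| ^ (κ * (1 + δ)) := by
      rw [Real.rpow_def_of_pos hx0, ← Real.exp_add, ← Real.exp_log (show 0 < |(s : ℝ)| by linarith),
        ← Real.exp_nat_mul]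
      refine Real.exp_le_exp.2 ?_
      push_cast
      calc ((m : ℝ) + 2) * Real.log |(s : ℝ)| ≤
          ((m : ℝ) + 2) * ((C0 + (1 + δ) * Real.log |(x : ℝ)|) / ((m : ℝ) + 1)) :=
            mul_le_mul_of_nonneg_left h2 hm2.le
        _ = κ * C0 + Real.log |(x : ℝ)| * (κ * (1 + δ)) := by
            rw [hκ]
            field_simp
    have h4 : |(x : ℝ)| ^ n ≤ 2 * (|(D : ℝ)| * (Real.exp (κ * C0) *
        |(x : ℝ)| ^ (κ * (1 + δ)))) := by
      have h5 := mul_le_mul_of_nonneg_left h3 (abs_nonneg (D : ℝ))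
      linarith
    rw [Real.rpow_sub hx0, Real.rpow_natCast, div_le_iff₀ (Real.rpow_pos_of_pos hx0 _)]
    have h5 : 0 ≤ B ^ n * |(D : ℝ)| * |(x : ℝ)| ^ (κ * (1 + δ)) := by positivity
    calc |(x : ℝ)| ^ n ≤ 2 * (|(D : ℝ)| * (Real.exp (κ * C0) *
        |(x : ℝ)| ^ (κ * (1 + δ)))) := h4
      _ ≤ 2 * (|(D : ℝ)| * (Real.exp (κ * C0) * |(x : ℝ)| ^ (κ * (1 + δ)))) +
          B ^ n * |(D : ℝ)| * |(x : ℝ)| ^ (κ * (1 + δ)) := by linarith
      _ = (2 * Real.exp (κ * C0) + B ^ n) * |(D : ℝ)| * |(x : ℝ)| ^ (κ * (1 + δ)) := by ring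
  · -- small abscissa
    have h1 : max |(x : ℝ)| 1 ≤ B := max_le hBx.le hB1
    have h2 : (1 : ℝ) ≤ max |(x : ℝ)| 1 := le_max_right _ _
    have h3 : (max |(x : ℝ)| 1) ^ ((n : ℝ) - κ * (1 + δ)) ≤ B ^ n := by
      calc (max |(x : ℝ)| 1) ^ ((n : ℝ) - κ * (1 + δ)) ≤ (max |(x : ℝ)| 1) ^ (n : ℝ) := by
            refine Real.rpow_le_rpow_of_exponent_le h2 ?_
            have : 0 ≤ κ * (1 + δ) := by positivity
            linarith
        _ = (max |(x : ℝ)| 1) ^ n := Real.rpow_natCast _ _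
        _ ≤ B ^ n := pow_le_pow_left₀ (by linarith) h1 _
    have h4 : 0 < Real.exp (κ * C0) := Real.exp_pos _
    have h5 : 0 < B ^ n := by positivity
    calc (max |(x : ℝ)| 1) ^ ((n : ℝ) - κ * (1 + δ)) ≤ B ^ n := h3
      _ ≤ 2 * Real.exp (κ * C0) + B ^ n := by linarith
      _ = (2 * Real.exp (κ * C0) + B ^ n) * 1 := (mul_one _).symm
      _ ≤ (2 * Real.exp (κ * C0) + B ^ n) * |(D : ℝ)| :=
          mul_le_mul_of_nonneg_left hD1 (by positivity)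

end Pool.Agent.Results.MP_6f1c57_nt.SparsePowerDivisors
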